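import Pool.Agent.H54.TW.Parts
import Pool.Agent.Results.MP_eba1ef_gt.TwelveInSpace

/-!
# MP_c15520_co: in a three-dimensional normed space twelve parts of smaller diameter suffice

For every norm of `ℝ³` (unit ball `G`) and every convex body `F` of `ℝ³` the partition number
`a_G(F)` is at most 12. Proof: `F` is covered by 12 translates of its interior
(`MP_eba1ef_gt.TwelveInSpace`); by compactness the parts can be chosen deep inside the translates
(`Pool/Agent/H54/TW/Parts.lean`), and such a part has a smaller diameter in every norm.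
-/

set_option autoImplicit false

namespace Pool.Agent.Results.MP_c15520_co.TwelvePartsInSpace

open Pool.Agent.H54.TW

/-- Every convex body `F` of `ℝ³` is the union of at most 12 nonempty parts of smaller `G`-diameter
than `F`, for every convex body `G = -G` (the unit ball of the norm). -/
theorem result (G F : Set (EuclideanSpace ℝ (Fin 3))) (hG : Convex ℝ G) (hGc : IsCompact G)
    (hGi : (interior G).Nonempty) (hGs : ∀ x ∈ G, -x ∈ G) (hF : Convex ℝ F) (hFc : IsCompact F)
    (hFi : (interior F).Nonempty) :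
    ∃ (k : ℕ) (A : Fin k → Set (EuclideanSpace ℝ (Fin 3))), k ≤ 12 ∧ (⋃ i, A i) = F ∧
      ∀ i, (A i).Nonempty ∧ gdiam G (A i) < gdiam G F := by
  obtain ⟨T, hT, hcov⟩ := Pool.Agent.Results.MP_eba1ef_gt.TwelveInSpace.result F hF hFc hFi
  obtain ⟨k, A, δ, hk, hδ, hA, h⟩ := parts hFc T hcov
  refine ⟨k, A, hk.trans hT, hA, fun i => ⟨(h i).1, ?_⟩⟩
  obtain ⟨t, ht⟩ := (h i).2
  exact gdiam_parts (by norm_num) hG hGc hGi hGs hFc hFi (h i).1
    (fun x hx => hA ▸ Set.mem_iUnion.2 ⟨i, hx⟩) hδ ht

end Pool.Agent.Results.MP_c15520_co.TwelvePartsInSpace
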